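import Mathlib

/-!
A proper sigma-algebra on `[0,1]` containing all subintervals and a selector of every partition
of `[0,1]` into pieces with at least two elements.
-/

open Cardinal Set MeasureTheory

namespace Pool.Agent.Results.MP_04ddd8_lc.Proper

section NS

variable {K : Type} [LinearOrder K] [WellFoundedLT K]

/-- `S` is nonstationary: for some `h`, no non-minimal element of `S` is closed under `h`. -/
def NS (S : Set K) : Prop := ∃ h : K → K, ∀ d ∈ S, IsBot d ∨ ∃ b < d, d ≤ h b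

omit [WellFoundedLT K] in
theorem NS.mono {S T : Set K} (h : NS T) (hST : S ⊆ T) : NS S := by
  obtain ⟨f, hf⟩ := h
  exact ⟨f, fun d hd => hf d (hST hd)⟩

omit [WellFoundedLT K] in
theorem NS.empty : NS (∅ : Set K) := ⟨id, fun d hd => absurd hd (notMem_empty d)⟩

omit [WellFoundedLT K] in
theorem NS.iUnion (hc : ∀ s : Set K, s.Countable → ∃ b, ∀ x ∈ s, x < b) {S : ℕ → Set K}
    (h : ∀ n, NS (S n)) : NS (⋃ n, S n) := by
  choose f hf using h
  have : ∀ b : K, ∃ g, ∀ n, f n b < g := by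
    intro b
    obtain ⟨g, hg⟩ := hc (range fun n => f n b) (countable_range _)
    exact ⟨g, fun n => hg _ ⟨n, rfl⟩⟩
  choose g hg using this
  refine ⟨g, ?_⟩
  intro d hd
  obtain ⟨n, hn⟩ := mem_iUnion.1 hd
  rcases hf n d hn with h | ⟨b, hb, hdb⟩
  · exact Or.inl h
  · exact Or.inr ⟨b, hb, hdb.trans (hg b n).le⟩

omit [WellFoundedLT K] in
theorem NS.union (hc : ∀ s : Set K, s.Countable → ∃ b, ∀ x ∈ s, x < b) {S T : Set K}
    (hS : NS S) (hT : NS T) : NS (S ∪ T) := by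
  have : NS (⋃ n : ℕ, if n = 0 then S else T) := by
    apply NS.iUnion hc
    intro n
    split_ifs
    · exact hS
    · exact hT
  refine this.mono ?_
  rintro x (hx | hx)
  · exact mem_iUnion.2 ⟨0, by simpa using hx⟩
  · exact mem_iUnion.2 ⟨1, by simpa using hx⟩

omit [WellFoundedLT K] in
theorem NS.of_injective (S : Set K) (f : K → K) (h1 : ∀ x ∈ S, f x < x)
    (h2 : Set.InjOn f S) : NS S := by
  classical
  refine ⟨fun b => if h : ∃ x ∈ S, f x = b then h.choose else b, ?_⟩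
  intro d hd
  refine Or.inr ⟨f d, h1 d hd, ?_⟩
  have hex : ∃ x ∈ S, f x = f d := ⟨d, hd, rfl⟩
  simp only [dif_pos hex]
  have := hex.choose_spec
  exact (h2 this.1 hd this.2).ge

omit [WellFoundedLT K] in
theorem NS.Iic (a : K) : NS (Iic a) := by
  refine ⟨fun _ => a, ?_⟩
  intro d hd
  by_cases hb : IsBot d
  · exact Or.inl hb
  · simp only [IsBot, not_forall, not_le] at hb
    obtain ⟨b, hb⟩ := hb
    exact Or.inr ⟨b, hb, hd⟩

/-- Fodor's lemma. -/
theorem fodor (hs : ∀ a : K, ∀ f : K → K → K, ∃ b, ∀ x ≤ a, ∀ y ≤ a, f x y < b) {S : Set K}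
    (hS : ¬ NS S) (f : K → K) (hf : ∀ x ∈ S, f x < x) : ∃ g, ¬ NS {x ∈ S | f x = g} := by
  by_contra hcon
  push Not at hcon
  choose h hh using hcon
  have : ∀ a : K, ∃ b, ∀ x ≤ a, ∀ y ≤ a, h x y < b := fun a => hs a h
  choose H hH using this
  apply hS
  refine ⟨H, ?_⟩
  intro d hd
  rcases hh (f d) d ⟨hd, rfl⟩ with h1 | ⟨b, hb, hdb⟩
  · exact Or.inl h1
  · refine Or.inr ⟨max (f d) b, max_lt (hf d hd) hb, ?_⟩
    exact hdb.trans (hH _ _ (le_max_left _ _) _ (le_max_right _ _)).le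

/-- the points of countable cofinality (successors included) -/
def L (K : Type) [LinearOrder K] : Set K :=
  {x | ∃ s : ℕ → K, (∀ n, s n < x) ∧ ∀ y < x, ∃ n, y ≤ s n}

theorem not_NS_L [Nonempty K] (hc : ∀ s : Set K, s.Countable → ∃ b, ∀ x ∈ s, x < b)
    (hs : ∀ a : K, ∀ f : K → K → K, ∃ b, ∀ x ≤ a, ∀ y ≤ a, f x y < b) : ¬ NS (L K) := by
  rintro ⟨h, hh⟩
  have hstep : ∀ a : K, ∃ b, a < b ∧ ∀ x ≤ a, h x < b := by
    intro a
    obtain ⟨b1, hb1⟩ := hs a (fun x _ => h x)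
    obtain ⟨b2, hb2⟩ := hs a (fun _ _ => a)
    refine ⟨max b1 b2, lt_max_of_lt_right (hb2 a le_rfl a le_rfl), ?_⟩
    intro x hx
    exact lt_max_of_lt_left (hb1 x hx x hx)
  choose nx hnx1 hnx2 using hstep
  let s : ℕ → K := fun n => Nat.rec (Classical.arbitrary K) (fun _ x => nx x) n
  have hs1 : ∀ n, s (n+1) = nx (s n) := fun n => rfl
  obtain ⟨B, hB⟩ := hc (range s) (countable_range s)
  obtain ⟨d, hd, hdm⟩ := WellFounded.has_min (wellFounded_lt (α := K))
    {x | ∀ n, s n < x} ⟨B, fun n => hB _ ⟨n, rfl⟩⟩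
  have hdL : d ∈ L K := by
    refine ⟨s, hd, ?_⟩
    intro y hy
    by_contra hcon
    push Not at hcon
    exact hdm y hcon hy
  rcases hh d hdL with hbot | ⟨b, hb, hdb⟩
  · exact absurd (hbot (s 0)) (not_le.2 (hd 0))
  · obtain ⟨n, hn⟩ : ∃ n, b ≤ s n := by
      by_contra hcon
      push Not at hcon
      exact hdm b hcon hb
    have h1 : h b < s (n+1) := by rw [hs1]; exact hnx2 _ _ hn
    exact absurd hdb (not_le.2 (h1.trans (hd (n+1))))

theorem exists_split [Nonempty K] (hc : ∀ s : Set K, s.Countable → ∃ b, ∀ x ∈ s, x < b)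
    (hs : ∀ a : K, ∀ f : K → K → K, ∃ b, ∀ x ≤ a, ∀ y ≤ a, f x y < b) :
    ∃ (f : K → K) (L : Set K), ∀ η, ∃ g, η ≤ g ∧ ¬ NS {x ∈ L | f x = g} := by
  classical
  have hL : ∀ x : K, ∃ s : ℕ → K, x ∈ L K → (∀ n, s n < x) ∧ ∀ y < x, ∃ n, y ≤ s n := by
    intro x
    by_cases hx : x ∈ L K
    · obtain ⟨s, hs⟩ := hx
      exact ⟨s, fun _ => hs⟩
    · exact ⟨fun _ => x, fun h => absurd h hx⟩
  choose c hcc using hL
  have hn : ∃ n, ∀ η, ¬ NS {x ∈ L K | η ≤ c x n} := by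
    by_contra hcon
    push Not at hcon
    choose η hη using hcon
    obtain ⟨B, hB⟩ := hc (range η) (countable_range η)
    apply not_NS_L hc hs
    refine (NS.union hc (NS.iUnion hc hη) (NS.Iic B)).mono ?_
    intro x hx
    by_cases hxB : x ≤ B
    · exact Or.inr hxB
    · left
      obtain ⟨n, hn⟩ := (hcc x hx).2 B (not_le.1 hxB)
      exact mem_iUnion.2 ⟨n, hx, (hB _ ⟨n, rfl⟩).le.trans hn⟩
  obtain ⟨n, hn⟩ := hn
  refine ⟨fun x => c x n, L K, ?_⟩
  intro η
  obtain ⟨g, hg⟩ := fodor hs (hn η) (fun x => c x n) (fun x hx => (hcc x hx.1).1 n)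
  refine ⟨g, ?_, fun h => hg (h.mono fun x hx => ⟨hx.1.1, hx.2⟩)⟩
  by_contra hlt
  apply hg
  refine NS.empty.mono ?_
  rintro x ⟨⟨h1, h2⟩, h3⟩
  exact absurd (h2.trans h3.le) hlt

end NS

section Main

variable {K : Type} [LinearOrder K] [WellFoundedLT K]

/-- The sigma-algebra of the sets that are Borel modulo a set whose trace on `K` is
nonstationary. -/
@[reducible] def alg (hc : ∀ s : Set K, s.Countable → ∃ b, ∀ x ∈ s, x < b) (e : K → Icc (0:ℝ) 1) :
    MeasurableSpace (Icc (0:ℝ) 1) where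
  MeasurableSet' A := ∃ B : Set (Icc (0:ℝ) 1), MeasurableSet B ∧ NS (e ⁻¹' (symmDiff A B))
  measurableSet_empty := ⟨∅, MeasurableSet.empty, by simpa using NS.empty⟩
  measurableSet_compl := by
    rintro A ⟨B, hB, h⟩
    refine ⟨Bᶜ, hB.compl, ?_⟩
    rw [compl_symmDiff_compl]
    exact h
  measurableSet_iUnion := by
    intro A hA
    choose B hB h using hA
    refine ⟨⋃ n, B n, MeasurableSet.iUnion hB, (NS.iUnion hc h).mono ?_⟩
    intro x hx
    rw [mem_preimage, mem_symmDiff] at hx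
    rcases hx with ⟨h1, h2⟩ | ⟨h1, h2⟩
    · obtain ⟨n, hn⟩ := mem_iUnion.1 h1
      refine mem_iUnion.2 ⟨n, ?_⟩
      rw [mem_preimage, mem_symmDiff]
      exact Or.inl ⟨hn, fun h => h2 (mem_iUnion.2 ⟨n, h⟩)⟩
    · obtain ⟨n, hn⟩ := mem_iUnion.1 h1
      refine mem_iUnion.2 ⟨n, ?_⟩
      rw [mem_preimage, mem_symmDiff]
      exact Or.inr ⟨hn, fun h => h2 (mem_iUnion.2 ⟨n, h⟩)⟩

theorem alg_iff (hc : ∀ s : Set K, s.Countable → ∃ b, ∀ x ∈ s, x < b) (e : K → Icc (0:ℝ) 1)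
    (A : Set (Icc (0:ℝ) 1)) : MeasurableSet[alg hc e] A ↔
      ∃ B : Set (Icc (0:ℝ) 1), MeasurableSet B ∧ NS (e ⁻¹' (symmDiff A B)) := Iff.rfl

theorem alg_of_measurable (hc : ∀ s : Set K, s.Countable → ∃ b, ∀ x ∈ s, x < b)
    (e : K → Icc (0:ℝ) 1) (A : Set (Icc (0:ℝ) 1)) (hA : MeasurableSet A) :
    MeasurableSet[alg hc e] A := by
  rw [alg_iff]
  exact ⟨A, hA, by simpa using NS.empty⟩

theorem selector (hc : ∀ s : Set K, s.Countable → ∃ b, ∀ x ∈ s, x < b)
    (e : K → Icc (0:ℝ) 1) (he : Function.Injective e)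
    (P : Set (Set (Icc (0:ℝ) 1))) (hdisj : P.PairwiseDisjoint id) (hnt : ∀ p ∈ P, p.Nontrivial) :
    ∃ S, MeasurableSet[alg hc e] S ∧ ∀ p ∈ P, ∃! x, x ∈ S ∩ p := by
  classical
  have key : ∀ p : Set (Icc (0:ℝ) 1), ∃ x, p.Nontrivial →
      (x ∈ p ∧ ∀ k, e k = x → ∃ k' < k, e k' ∈ p) := by
    intro p
    by_cases hp : p.Nontrivial
    · obtain ⟨x, hx, y, hy, hxy⟩ := hp
      by_cases hxr : x ∈ range e
      · by_cases hyr : y ∈ range e
        · obtain ⟨k, rfl⟩ := hxr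
          obtain ⟨l, rfl⟩ := hyr
          have hkl : k ≠ l := fun h => hxy (by rw [h])
          rcases lt_or_gt_of_ne hkl with h | h
          · refine ⟨e l, fun _ => ⟨hy, fun j hj => ?_⟩⟩
            rw [he hj]; exact ⟨k, h, hx⟩
          · refine ⟨e k, fun _ => ⟨hx, fun j hj => ?_⟩⟩
            rw [he hj]; exact ⟨l, h, hy⟩
        · exact ⟨y, fun _ => ⟨hy, fun k hk => absurd ⟨k, hk⟩ hyr⟩⟩
      · exact ⟨x, fun _ => ⟨hx, fun k hk => absurd ⟨k, hk⟩ hxr⟩⟩
    · exact ⟨⟨0, by simp⟩, fun h => absurd h hp⟩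
  choose sel hsel using key
  have huniq : ∀ p ∈ P, ∀ q ∈ P, ∀ z, z ∈ p → z ∈ q → p = q := by
    intro p hp q hq z hzp hzq
    by_contra hne
    exact Set.disjoint_left.1 (hdisj hp hq hne) hzp hzq
  refine ⟨sel '' P, ?_, ?_⟩
  · rw [alg_iff]
    refine ⟨∅, MeasurableSet.empty, ?_⟩
    rw [← Set.bot_eq_empty, symmDiff_bot]
    have hex : ∀ k : K, ∃ k', k ∈ e ⁻¹' (sel '' P) → k' < k ∧ ∃ p ∈ P, sel p = e k ∧ e k' ∈ p := by
      intro k
      by_cases hk : k ∈ e ⁻¹' (sel '' P)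
      · obtain ⟨p, hp, hpk⟩ := hk
        obtain ⟨k', hk', hmem⟩ := (hsel p (hnt p hp)).2 k hpk.symm
        exact ⟨k', fun _ => ⟨hk', p, hp, hpk, hmem⟩⟩
      · exact ⟨k, fun h => absurd h hk⟩
    choose f hf using hex
    refine NS.of_injective _ f (fun x hx => (hf x hx).1) ?_
    intro x hx y hy hxy
    obtain ⟨-, p, hp, hpx, hp'⟩ := hf x hx
    obtain ⟨-, q, hq, hqy, hq'⟩ := hf y hy
    rw [hxy] at hp'
    have : p = q := huniq p hp q hq _ hp' hq'
    subst this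
    exact he (hpx.symm.trans hqy)
  · intro p hp
    refine ⟨sel p, ⟨⟨p, hp, rfl⟩, (hsel p (hnt p hp)).1⟩, ?_⟩
    rintro y ⟨⟨q, hq, rfl⟩, hy⟩
    have := huniq q hq p hp _ (hsel q (hnt q hq)).1 hy
    rw [this]

end Main

/-- There is a family `𝔑` of subsets of `I = [0,1]` that contains every subinterval of `I`, is a
sigma-algebra on `I`, contains some selector of every partition of `I` into pieces with at least
two elements, and is not the full power set of `I`. -/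
theorem result : ∃ 𝔑 : Set (Set (Icc (0:ℝ) 1)),
    (∀ J : Set (Icc (0:ℝ) 1), J.OrdConnected → J ∈ 𝔑) ∧
    (∀ A ∈ 𝔑, Aᶜ ∈ 𝔑) ∧
    (∀ A : ℕ → Set (Icc (0:ℝ) 1), (∀ n, A n ∈ 𝔑) → (⋃ n, A n) ∈ 𝔑) ∧
    (∀ P : Set (Set (Icc (0:ℝ) 1)),
      P.PairwiseDisjoint id → ⋃₀ P = Set.univ → (∀ p ∈ P, p.Nontrivial) →
      ∃ S ∈ 𝔑, ∀ p ∈ P, ∃! x, x ∈ S ∩ p) ∧
    ∃ X : Set (Icc (0:ℝ) 1), X ∉ 𝔑 := by
  classical
  let κ : Cardinal.{0} := (Cardinal.continuum.{0}).ord.cof
  let K : Type := κ.ord.ToType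
  have hκc : κ ≤ 𝔠 := Ordinal.cof_ord_le _
  have hκ : ℵ₀ < κ := by
    have := Cardinal.lt_cof_ord_power (a := ℵ₀) (b := 2) le_rfl one_lt_two
    rwa [Cardinal.two_power_aleph0] at this
  have hpow : 𝔠 < 2 ^ κ := by
    have h1 : 𝔠 < 𝔠 ^ κ := Cardinal.lt_power_cof_ord Cardinal.aleph0_le_continuum
    have h2 : (𝔠 : Cardinal.{0}) ^ κ = 2 ^ κ := by
      rw [← Cardinal.two_power_aleph0, ← Cardinal.power_mul, Cardinal.aleph0_mul_eq hκ.le]
    rwa [h2] at h1
  have hcofK : Order.cof K = κ := by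
    rw [Ordinal.cof_toType, Ordinal.cof_ord_cof]
  have hbound : ∀ s : Set K, #s < κ → ∃ b, ∀ x ∈ s, x < b := by
    intro s hs
    by_contra hcon
    push Not at hcon
    have : IsCofinal s := fun x => hcon x
    have := Order.cof_le this
    rw [hcofK] at this
    exact absurd hs (not_lt.2 this)
  have hc : ∀ s : Set K, s.Countable → ∃ b, ∀ x ∈ s, x < b := by
    intro s hs
    exact hbound s (hs.le_aleph0.trans_lt hκ)
  have hIic : ∀ a : K, #(Iic a) < κ := by
    intro a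
    have : Iic a ⊆ Iio a ∪ {a} := by
      intro y hy
      rcases lt_or_eq_of_le (show y ≤ a from hy) with h | h
      · exact Or.inl h
      · exact Or.inr h
    refine (mk_le_mk_of_subset this).trans_lt ((mk_union_le _ _).trans_lt ?_)
    apply add_lt_of_lt hκ.le (mk_Iio_toType_ord_lt a)
    rw [mk_singleton]
    exact one_lt_aleph0.trans hκ
  have hs : ∀ a : K, ∀ f : K → K → K, ∃ b, ∀ x ≤ a, ∀ y ≤ a, f x y < b := by
    intro a f
    have h1 : #(range fun z : Iic a × Iic a => f z.1 z.2) < κ := by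
      refine mk_range_le.trans_lt ?_
      simp only [mk_prod, lift_id]
      exact mul_lt_of_lt hκ.le (hIic a) (hIic a)
    obtain ⟨b, hb⟩ := hbound _ h1
    exact ⟨b, fun x hx y hy => hb _ ⟨(⟨x, hx⟩, ⟨y, hy⟩), rfl⟩⟩
  have hne : Nonempty K := by
    rw [← mk_ne_zero_iff, mk_ord_toType]
    exact (aleph0_pos.trans hκ).ne'
  have hcardI : #(Icc (0:ℝ) 1) = 𝔠 := Cardinal.mk_Icc_real zero_lt_one
  obtain ⟨e⟩ : Nonempty (K ↪ Icc (0:ℝ) 1) := by
    have : #K ≤ #(Icc (0:ℝ) 1) := by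
      rw [hcardI, mk_ord_toType]; exact hκc
    exact this
  refine ⟨{A | MeasurableSet[alg hc e] A}, ?_, ?_, ?_, ?_, ?_⟩
  · intro J hJ
    exact alg_of_measurable hc e J hJ.measurableSet
  · intro A hA
    exact @MeasurableSet.compl _ A (alg hc e) hA
  · intro A hA
    exact @MeasurableSet.iUnion _ ℕ (alg hc e) _ A hA
  · intro P h1 _ h3
    exact selector hc e e.injective P h1 h3
  · by_contra hcon
    push Not at hcon
    obtain ⟨f, Λ, hsplit⟩ := exists_split hc hs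
    let Γ : Set K := {g | ¬ NS {x ∈ Λ | f x = g}}
    have hΓ : κ ≤ #Γ := by
      by_contra hlt
      obtain ⟨b, hb⟩ := hbound Γ (not_le.1 hlt)
      obtain ⟨g, hg, hg'⟩ := hsplit b
      exact absurd (hb g hg') (not_lt.2 hg)
    let X : Set Γ → Set (Icc (0:ℝ) 1) := fun a => e '' {x ∈ Λ | ∃ g ∈ a, f x = (g : K)}
    have hX : ∀ a : Set Γ, ∃ B : Set (Icc (0:ℝ) 1), MeasurableSet B ∧
        NS (e ⁻¹' (symmDiff (X a) B)) := fun a => hcon (X a)
    choose B hB hNS using hX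
    have hinj : Function.Injective (fun a : Set Γ => (⟨B a, hB a⟩ : {s : Set (Icc (0:ℝ) 1) |
        MeasurableSet s})) := by
      have aux : ∀ a b : Set Γ, B a = B b → ∀ g ∈ a, g ∈ b := by
        intro a b hab g hga
        by_contra hgb
        apply g.2
        have h1 := hNS a
        have h2 := hNS b
        rw [hab] at h1
        refine (NS.union hc h1 h2).mono ?_
        rintro x ⟨hxΛ, hxg⟩
        have hxa : e x ∈ X a := ⟨x, ⟨hxΛ, g, hga, hxg⟩, rfl⟩
        have hxb : e x ∉ X b := by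
          rintro ⟨y, ⟨-, g', hg', hyg'⟩, hyx⟩
          have : y = x := e.injective hyx
          subst this
          have : g = g' := Subtype.ext (hxg.symm.trans hyg')
          exact hgb (this ▸ hg')
        by_cases hxB : e x ∈ B b
        · right
          rw [mem_preimage, mem_symmDiff]
          exact Or.inr ⟨hxB, hxb⟩
        · left
          rw [mem_preimage, mem_symmDiff]
          exact Or.inl ⟨hxa, hxB⟩
      intro a b hab
      have hab' : B a = B b := congrArg Subtype.val hab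
      ext g
      exact ⟨aux a b hab' g, aux b a hab'.symm g⟩
    have h1 := Cardinal.mk_le_of_injective hinj
    have h2 : #{s : Set (Icc (0:ℝ) 1) | MeasurableSet s} ≤ 𝔠 := by
      have hcg : ∃ b : Set (Set (Icc (0:ℝ) 1)), b.Countable ∧
          (inferInstance : MeasurableSpace (Icc (0:ℝ) 1)) = MeasurableSpace.generateFrom b :=
        (inferInstance : MeasurableSpace.CountablyGenerated (Icc (0:ℝ) 1)).isCountablyGenerated
      obtain ⟨b, hb, hb'⟩ := hcg
      have := MeasurableSpace.cardinal_measurableSet_le_continuum (s := b)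
        (hb.le_aleph0.trans aleph0_le_continuum)
      rw [← hb'] at this
      exact this
    have h3 : (2 : Cardinal) ^ κ ≤ 𝔠 := by
      refine le_trans ?_ (h1.trans h2)
      rw [mk_set]
      exact Cardinal.power_le_power_left two_ne_zero hΓ
    exact absurd hpow (not_lt.2 h3)

end Pool.Agent.Results.MP_04ddd8_lc.Proper
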